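import Pool.Agent.Y92.ZX.Stm

/-!
# Blocks ORD and GMCC of project ZX

`ord` is adapted from `order_bound3` of `Pool.Agent.Y92.ZF.Loc` (helper92, helper226).
-/

set_option autoImplicit false
set_option linter.unusedSectionVars false

open UpperHalfPlane H294ZP Polynomial IsDedekindDomain NumberField

namespace Pool.Agent.Y945.ZX

open Pool.Agent.Y226 Pool.Agent.Y226.ZG Pool.Agent.Y226.ZM Pool.Agent.Y226.ZU Pool.Agent.Y92.ZX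

section ord

variable {C : Type} [NormedField C] [IsUltrametricDist C] {p : ℕ} [hpf : Fact p.Prime]
  {k 𝕜 : Type} [Field k] [Field 𝕜] {n N W M d D B : ℕ} {𝓛 : LB C p k 𝕜 n N W M d D B}
  {κ : Fin n → OO C} {Y : Fin n → Cˣ} {X : Fin n → QA} {j l : Fin n} {A B₁ g' s : ℕ}
  {ζ' ε : Cˣ}

theorem PB_close (h : PB 𝓛 κ Y X j l A B₁ g' s ζ' ε) (hYj : ‖((Y j : Cˣ) : C)‖ = 1)
    (hYl : ‖((Y l : Cˣ) : C)‖ = 1) :
    ‖((𝓛.Λ l ^ B₁ * (𝓛.Λ j ^ A)⁻¹ * (Y l ^ B₁ * (Y j ^ A)⁻¹) * (ζ' * ε) : Cˣ) : C) - 1‖ ≤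
      ‖(p : C)‖ := by
  have e1 : ((𝓛.Λ l ^ B₁ * (𝓛.Λ j ^ A)⁻¹ * (Y l ^ B₁ * (Y j ^ A)⁻¹) * (ζ' * ε) : Cˣ) : C) - 1 =
      (((𝓛.Λ l ^ B₁ * (𝓛.Λ j ^ A)⁻¹ * (Y l ^ B₁ * (Y j ^ A)⁻¹) * (ζ' * ε) : Cˣ) : C) -
        (1 + p * (B₁ * (κ l * ((Y l : Cˣ) : C)⁻¹) - A * (κ j * ((Y j : Cˣ) : C)⁻¹)))) +
        p * (B₁ * (κ l * ((Y l : Cˣ) : C)⁻¹) - A * (κ j * ((Y j : Cˣ) : C)⁻¹)) := by ring
  rw [e1]
  refine nadd_le (h.hexp.trans (pow_le_of_le_one (norm_nonneg _) 𝓛.hp1.le two_ne_zero)) ?_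
  refine nmul_le' le_rfl (nsub_le (nmul_le (nnat B₁) (nmul_le (κ l).2 ?_))
    (nmul_le (nnat A) (nmul_le (κ j).2 ?_)))
  · rw [norm_inv, hYl, inv_one]
  · rw [norm_inv, hYj, inv_one]

theorem LB_red_congr (𝓛 : LB C p k 𝕜 n N W M d D B) {x y : OO C} (h : ‖(x : C) - y‖ < 1) :
    𝓛.red x = 𝓛.red y := by
  rw [← sub_eq_zero, ← map_sub, 𝓛.hker]
  exact h

end ord

/-- Block ORD. -/
theorem ord : S_ORD := by
  intro C _ _ _ p hpf k 𝕜 _ _ n N W M d D B 𝓛 S hS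
  classical
  let mb : Fin n → Fin n → ℕ → ℕ → k := fun j l A B₁ =>
    if h : ‖((𝓛.Λ l ^ B₁ * (𝓛.Λ j ^ A)⁻¹ : Cˣ) : C)‖ ≤ 1 then 𝓛.red ⟨_, h⟩ else 0
  let f : k × k × Fin (W + 1) × Fin (W + 1) × Fin n × Fin n → ℕ := fun q =>
    orderOf (q.1 ^ (q.2.2.1 : ℕ) * (mb q.2.2.2.2.1 q.2.2.2.2.2 q.2.2.1 q.2.2.2.1 *
      q.2.1 ^ (q.2.2.2.1 : ℕ))⁻¹)
  have hfin : (f '' (S ×ˢ (S ×ˢ Set.univ))).Finite :=
    (hS.prod (hS.prod (Set.finite_univ))).image f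
  obtain ⟨G, hG⟩ := hfin.bddAbove
  refine ⟨G, ?_⟩
  intro κ Y X j l A B₁ g' s ζ' ε hPI uj ul huj hul hYj hYl hSj hSl
  have h1 : ‖(ζ' : C)‖ ^ g' = 1 := by rw [← norm_pow, hPI.hζ.pow_eq_one, norm_one]
  have hζn : ‖(ζ' : C)‖ = 1 := (pow_eq_one_iff_of_nonneg (norm_nonneg _) hPI.hg.ne').1 h1
  set Z : OO C := ⟨(ζ' : C), hζn.le⟩ with hZ
  have hord : orderOf (𝓛.red Z) = g' := by
    refine IsPrimitiveRoot.eq_orderOf ?_ |>.symm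
    refine ⟨?_, fun m hm => ?_⟩
    · rw [← map_pow]
      have : Z ^ g' = 1 := Subtype.ext hPI.hζ.pow_eq_one
      rw [this, map_one]
    · apply hPI.hζ.dvd_of_pow_eq_one
      rw [← map_pow, ← sub_eq_zero, ← map_one 𝓛.red, ← map_sub, 𝓛.hker] at hm
      have hm' : ‖(ζ' : C) ^ m - 1‖ < 1 := hm
      refine tame_eq_one (m := g') ?_ ?_ hm'
      · have hco : IsCoprime (g' : ℤ) (p : ℤ) := Nat.isCoprime_iff_coprime.2 hPI.hcop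
        obtain ⟨u, v, huv⟩ := hco
        have h2 : (u : C) * (g' : C) - 1 = -(v * p) := by
          have := congrArg (Int.cast : ℤ → C) huv
          push_cast at this
          linear_combination this
        have h3 : ‖(u : C) * (g' : C)‖ = 1 := by
          refine neq_one (y := 1) ?_ norm_one
          rw [h2, norm_neg]
          exact (nmul_le (nint v) le_rfl).trans_lt 𝓛.hp1
        rw [norm_mul] at h3
        have h4 := nint (C := C) u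
        have h5 := nnat (C := C) g'
        have h6 := norm_nonneg (u : C)
        have h7 := norm_nonneg (g' : C)
        nlinarith
      · rw [← pow_mul, mul_comm, pow_mul, hPI.hζ.pow_eq_one, one_pow]
  set μ : Cˣ := 𝓛.Λ l ^ B₁ * (𝓛.Λ j ^ A)⁻¹ with hμ
  have hμn : ‖(μ : C)‖ = 1 := GG_norm hPI.hμ
  have hclose := PB_close hPI hYj hYl
  have hεlt : ‖(ε : C) - 1‖ < 1 := ppow_root_lt 𝓛.hp1 hPI.hε.pow_eq_one
  have hclose2 : ‖((μ * (Y l ^ B₁ * (Y j ^ A)⁻¹) * ζ' : Cˣ) : C) - 1‖ < 1 := by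
    have e1 : ((μ * (Y l ^ B₁ * (Y j ^ A)⁻¹) * ζ' : Cˣ) : C) - 1 =
        (((μ * (Y l ^ B₁ * (Y j ^ A)⁻¹) * (ζ' * ε) : Cˣ) : C) - 1) -
        ((μ * (Y l ^ B₁ * (Y j ^ A)⁻¹) * ζ' : Cˣ) : C) * ((ε : C) - 1) := by
      simp only [Units.val_mul]; ring
    rw [e1]
    refine nsub_lt (hclose.trans_lt 𝓛.hp1) ?_
    rw [norm_mul]
    have e2 : ‖((μ * (Y l ^ B₁ * (Y j ^ A)⁻¹) * ζ' : Cˣ) : C)‖ = 1 := by
      simp only [Units.val_mul, Units.val_inv_eq_inv_val, Units.val_pow_eq_pow_val, norm_mul,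
        norm_inv, norm_pow, hYj, hYl, hμn, hζn, one_pow, inv_one, mul_one]
    rw [e2, one_mul]
    exact hεlt
  set μO : OO C := ⟨(μ : C), hμn.le⟩ with hμO
  have hmb : mb j l A B₁ = 𝓛.red μO := by
    show (if h : ‖((𝓛.Λ l ^ B₁ * (𝓛.Λ j ^ A)⁻¹ : Cˣ) : C)‖ ≤ 1 then 𝓛.red ⟨_, h⟩ else 0) = _
    rw [dif_pos hμn.le]
  have hrel : 𝓛.red (μO * ul ^ B₁ * Z) = 𝓛.red (uj ^ A) := by
    apply LB_red_congr 𝓛
    show ‖(μ : C) * (ul : C) ^ B₁ * (ζ' : C) - (uj : C) ^ A‖ < 1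
    rw [hul, huj]
    have hY0 : ((Y j : Cˣ) : C) ≠ 0 := (Y j).ne_zero
    have e1 : (μ : C) * (Y l : C) ^ B₁ * (ζ' : C) - (Y j : C) ^ A =
        (Y j : C) ^ A * (((μ * (Y l ^ B₁ * (Y j ^ A)⁻¹) * ζ' : Cˣ) : C) - 1) := by
      simp only [Units.val_mul, Units.val_inv_eq_inv_val, Units.val_pow_eq_pow_val]
      field_simp
    rw [e1, norm_mul, norm_pow, hYj, one_pow, one_mul]
    exact hclose2
  have hne : ∀ x : OO C, ‖(x : C)‖ = 1 → 𝓛.red x ≠ 0 := by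
    intro x hx
    rw [Ne, 𝓛.hker, hx]
    exact lt_irrefl 1
  have hval : 𝓛.red Z = 𝓛.red uj ^ A * (mb j l A B₁ * 𝓛.red ul ^ B₁)⁻¹ := by
    rw [map_mul, map_mul, map_pow, map_pow] at hrel
    rw [hmb, ← hrel]
    have h1 := hne μO hμn
    have h2 := hne ul (by rw [hul]; exact hYl)
    field_simp
  rw [← hord, hval]
  apply hG
  have hA := hPI.hAW
  have hB := hPI.hBW
  exact ⟨(𝓛.red uj, 𝓛.red ul, ⟨A, by omega⟩, ⟨B₁, by omega⟩, j, l), ⟨hSj, hSl, trivial⟩, rfl⟩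

/-- Block GMCC. -/
theorem gmcc : S_GMCC := by
  intro A 𝕜 _ _ n κ d₀ π F hGM
  refine ⟨hGM.prime none, hGM.const, fun i j hij => ?_⟩
  obtain ⟨a, b, g, ha, hb, h00, ha0, h0b, hab, -, hmem⟩ := hGM.gen i j hij
  refine ⟨a, b, fun u v => π (g u v), ha, hb, h00, ha0, h0b, hab, ?_⟩
  have h1 := Ideal.mem_map_of_mem
    (MvPolynomial.eval₂Hom (MvPolynomial.C.comp π) (chv (none : Option (Fin n))
      (MvPolynomial.X : Fin n → MvPolynomial (Fin n) 𝕜))) hmem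
  rw [Ideal.map_span, ← Set.range_comp] at h1
  have h2 : (MvPolynomial.eval₂Hom (MvPolynomial.C.comp π) (chv (none : Option (Fin n))
      (MvPolynomial.X : Fin n → MvPolynomial (Fin n) 𝕜))) (bh i j a b g) =
      ∑ u ∈ Finset.range (a + 1), ∑ v ∈ Finset.range (b + 1),
        MvPolynomial.C (π (g u v)) * MvPolynomial.X i ^ u * MvPolynomial.X j ^ v := by
    unfold bh
    simp only [map_sum, map_mul, map_pow, MvPolynomial.coe_eval₂Hom, MvPolynomial.eval₂_C,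
      MvPolynomial.eval₂_X, chv, RingHom.comp_apply]
    simp
  rw [h2] at h1
  exact h1

end Pool.Agent.Y945.ZX
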